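import Pool.Agent.Lib_helper49.GC34.E3
import Pool.Agent.Lib_helper92.RC.Bridge
import Pool.Agent.Lib_helper98.RenyiPow

/-!
# Block E1, fourth part: the form with all even moments, strict pairs
-/

set_option autoImplicit false

open scoped BigOperators ComplexOrder Kronecker MatrixOrder Topology
open MeasureTheory Set Matrix Filter

namespace Pool.Agent.Lib_helper49.GC34

open Pool.Agent.RC

variable {ι κ : Type} [Fintype ι] [DecidableEq ι] [Fintype κ] [DecidableEq κ]

/-- the trace of a power of a Kronecker product -/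
theorem trF_kron (p : ℝ) {A : Matrix ι ι ℂ} {C : Matrix κ κ ℂ} (hA : A.PosSemidef)
    (hC : C.PosSemidef) : trF (fun x => x ^ p) (A ⊗ₖ C) =
      trF (fun x => x ^ p) A * trF (fun x => x ^ p) C := by
  obtain ⟨U, c, hU, -, hc, rfl⟩ := Pool.Agent.Lib_helper98.Renyi.exists_spectral_nonneg hA
  obtain ⟨V, d, hV, -, hd, rfl⟩ := Pool.Agent.Lib_helper98.Renyi.exists_spectral_nonneg hC
  rw [Pool.Agent.Lib_helper98.Renyi.kron_conj, TRF.trF_conj _ hU, TRF.trF_conj _ hV,
    TRF.trF_conj _ (Pool.Agent.Lib_helper98.Renyi.kron_unitary hU hV), Finset.sum_mul_sum,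
    Fintype.sum_prod_type]
  refine Finset.sum_congr rfl fun i _ => Finset.sum_congr rfl fun j _ => ?_
  exact Real.mul_rpow (hc i) (hd j)

/-- the even moments `Tr A^p, T₂, T₄, ..` of a pair -/
noncomputable def mu (p : ℝ) (A D : Matrix ι ι ℂ) : ℕ → ℝ
  | 0 => trF (fun x => x ^ p) A
  | k + 1 => Ts p A D k

theorem bin_zero (p : ℝ) : bin p 0 = 1 := by simp [bin]

/-- `∑_k binom(p, 2k) mu_{2k} mu'_{2k}` as a `HasSum` -/
theorem mu_hasSum (p : ℝ) (h3 : 3 < p) (h4 : p < 4) (A D : Matrix ι ι ℂ) (h : IsPair A D)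
    (C D' : Matrix κ κ ℂ) (h' : IsPair C D') :
    HasSum (fun k : ℕ => bin p (2 * k) * (mu p A D k * mu p C D' k))
      (trF (fun x => x ^ p) A * trF (fun x => x ^ p) C +
        ∑' m : ℕ, Wt p m * (Ts p A D m * Ts p C D' m)) := by
  have h5 := (TT_summable p h3 h4 A D h C D' h').hasSum
  have h6 := (hasSum_nat_add_iff
    (f := fun k : ℕ => bin p (2 * k) * (mu p A D k * mu p C D' k)) 1).1 h5
  rw [Finset.sum_range_one, add_comm] at h6
  simpa [mu, bin_zero] using h6

/-- **Block E1** with all the even moments -/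
theorem E1_mu (p : ℝ) (h3 : 3 < p) (h4 : p < 4) (A D : Matrix ι ι ℂ) (h : IsPair A D)
    (C D' : Matrix κ κ ℂ) (h' : IsPair C D')
    (hT : ∑' k : ℕ, bin p (2 * k) * (mu p A D k * mu p C D' k) ≤
      (trF (fun x => x ^ p) (A ⊗ₖ C + D ⊗ₖ D') + trF (fun x => x ^ p) (A ⊗ₖ C - D ⊗ₖ D')) / 2) :
    G p A D * G p C D' ≤ (2 ^ (p - 1) - 1) * G p (A ⊗ₖ C) (D ⊗ₖ D') := by
  apply E1 p h3 h4 A D h C D' h'
  rw [(mu_hasSum p h3 h4 A D h C D' h').tsum_eq] at hT
  unfold G
  rw [trF_kron p h.pos.posSemidef h'.pos.posSemidef]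
  linarith

omit [Fintype ι] [DecidableEq ι] in
/-- strict pairs are pairs -/
theorem isPair_of_strict {A D : Matrix ι ι ℂ} (h₁ : (A - D).PosDef) (h₂ : (A + D).PosDef) :
    IsPair A D where
  pos := by
    have h := h₁.add h₂
    have e : A - D + (A + D) = (2 : ℝ) • A := by
      rw [two_smul]
      abel
    rw [e] at h
    have h5 := h.smul (show (0 : ℝ) < 2⁻¹ by norm_num)
    rwa [smul_smul, inv_mul_cancel₀ (by norm_num), one_smul] at h5
  sub := h₁.posSemidef
  add := h₂.posSemidef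

/-- the even moments determine `½ Tr (A + x D)^p + ½ Tr (A - x D)^p` for `|x| ≤ 1` -/
theorem In_x_smul (α x : ℝ) (A D : Matrix ι ι ℂ) (n : ℕ) :
    In α A ((x : ℂ) • D) n = x ^ n * In α A D n := by
  unfold In
  rw [← integral_const_mul]
  congr 1
  funext r
  have : tn A ((x : ℂ) • D) n r = x ^ n * tn A D n r := by
    unfold tn
    rw [Matrix.mul_smul, smul_pow, Matrix.trace_smul, smul_eq_mul, ← Complex.ofReal_pow,
      Complex.re_ofReal_mul]
  rw [this]
  ring

theorem T2_x_smul (α x : ℝ) (A D : Matrix ι ι ℂ) :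
    T2 α A ((x : ℂ) • D) = x ^ 2 * T2 α A D := by
  unfold T2
  rw [← mul_div_assoc, ← integral_const_mul]
  congr 2
  funext r
  have : j2 A ((x : ℂ) • D) r = x ^ 2 * j2 A D r := by
    unfold j2
    simp only [Matrix.mul_smul, Matrix.smul_mul, smul_smul, Matrix.trace_smul, smul_eq_mul]
    rw [← Complex.ofReal_mul, Complex.re_ofReal_mul, Complex.re_ofReal_mul]
    ring
  rw [this]
  ring

theorem Ts_x_smul (α x : ℝ) (A D : Matrix ι ι ℂ) (m : ℕ) :
    Ts α A ((x : ℂ) • D) m = x ^ (2 * m + 2) * Ts α A D m := by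
  rcases m with _ | m
  · exact T2_x_smul α x A D
  · show In α A ((x : ℂ) • D) (2 * (m + 2)) / bet α (2 * (m + 2)) =
      x ^ (2 * (m + 1) + 2) * (In α A D (2 * (m + 2)) / bet α (2 * (m + 2)))
    rw [In_x_smul, mul_div_assoc]
    congr 1

omit [Fintype ι] [DecidableEq ι] in
theorem isPair_x_smul {A D : Matrix ι ι ℂ} (h : IsPair A D) (x : ℝ) (hx : |x| ≤ 1) :
    IsPair A ((x : ℂ) • D) where
  pos := h.pos
  sub := by
    have e : A - (x : ℂ) • D = ((1 + x) / 2) • (A - D) + ((1 - x) / 2) • (A + D) := by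
      ext i j
      simp only [Matrix.sub_apply, Matrix.add_apply, Matrix.smul_apply, smul_eq_mul,
        Complex.real_smul]
      push_cast
      ring
    rw [e]
    exact (h.sub.smul (by linarith [(abs_le.1 hx).1])).add
      (h.add.smul (by linarith [(abs_le.1 hx).2]))
  add := by
    have e : A + (x : ℂ) • D = ((1 - x) / 2) • (A - D) + ((1 + x) / 2) • (A + D) := by
      ext i j
      simp only [Matrix.sub_apply, Matrix.add_apply, Matrix.smul_apply, smul_eq_mul,
        Complex.real_smul]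
      push_cast
      ring
    rw [e]
    exact (h.sub.smul (by linarith [(abs_le.1 hx).2])).add
      (h.add.smul (by linarith [(abs_le.1 hx).1]))

/-- `½ Tr (A + x D)^p + ½ Tr (A - x D)^p = ∑_k binom(p, 2k) mu_{2k} x^{2k}` for `|x| ≤ 1` -/
theorem mu_series (p : ℝ) (h3 : 3 < p) (h4 : p < 4) (A D : Matrix ι ι ℂ) (h : IsPair A D)
    (x : ℝ) (hx : |x| ≤ 1) :
    HasSum (fun k : ℕ => bin p (2 * k) * mu p A D k * x ^ (2 * k))
      ((trF (fun y => y ^ p) (A + (x : ℂ) • D) + trF (fun y => y ^ p) (A - (x : ℂ) • D)) / 2) := by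
  have h5 := G_hasSum p h3 h4 A ((x : ℂ) • D) (isPair_x_smul h x hx)
  have h5' : HasSum (fun m : ℕ => bin p (2 * (m + 1)) * mu p A D (m + 1) * x ^ (2 * (m + 1)))
      (G p A ((x : ℂ) • D)) := by
    refine h5.congr_fun ?_
    intro m
    rw [Ts_x_smul]
    show bin p (2 * (m + 1)) * Ts p A D m * x ^ (2 * (m + 1)) =
      Wt p m * (x ^ (2 * m + 2) * Ts p A D m)
    have e : 2 * (m + 1) = 2 * m + 2 := by ring
    rw [e, Wt]
    ring
  have h6 := (hasSum_nat_add_iff
    (f := fun k : ℕ => bin p (2 * k) * mu p A D k * x ^ (2 * k)) 1).1 h5'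
  rw [Finset.sum_range_one] at h6
  have e : G p A ((x : ℂ) • D) + bin p (2 * 0) * mu p A D 0 * x ^ (2 * 0) =
      (trF (fun y => y ^ p) (A + (x : ℂ) • D) + trF (fun y => y ^ p) (A - (x : ℂ) • D)) / 2 := by
    simp only [mul_zero, bin_zero, pow_zero, mul_one, one_mul, mu, G]
    ring
  rwa [e] at h6

end Pool.Agent.Lib_helper49.GC34
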