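import Pool.Agent.Lib_helper31.GC34.Defs2
import Pool.Agent.Lib_helper49.GC34.E4

/-!
# Blocks E and M1 in the notation of `Lib_helper31/GC34/Defs`
-/

set_option autoImplicit false

open scoped BigOperators ComplexOrder Kronecker MatrixOrder Topology
open MeasureTheory Set Matrix Filter

namespace Pool.Agent.Lib_helper49.GC34

open Pool.Agent.RC Pool.Agent.GC34

variable {ι κ : Type} [Fintype ι] [DecidableEq ι] [Fintype κ] [DecidableEq κ]

theorem tf_eq_trF (f : ℝ → ℝ) {M : Matrix ι ι ℂ} (h : M.IsHermitian) : tf f M = trF f M :=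
  (trF_eq_cfc f h).symm

omit [Fintype ι] [DecidableEq ι] in
theorem rsmul_eq (x : ℝ) (D : Matrix ι ι ℂ) : x • D = (x : ℂ) • D := by
  ext i j
  simp [Complex.real_smul]

omit [Fintype ι] [DecidableEq ι] in
theorem pair_herm {A D : Matrix ι ι ℂ} (h : IsPair A D) : D.IsHermitian := by
  have := h.add.1.sub h.pos.1
  rwa [add_sub_cancel_left] at this

theorem Hs_eq (p : ℝ) {A D : Matrix ι ι ℂ} (h : IsPair A D) :
    Hs p A D = (trF (fun x => x ^ p) (A + D) + trF (fun x => x ^ p) (A - D)) / 2 := by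
  unfold Hs
  rw [tf_eq_trF _ h.add.1, tf_eq_trF _ h.sub.1]

theorem Hs_eq_G (p : ℝ) {A D : Matrix ι ι ℂ} (h : IsPair A D) :
    Hs p A D = G p A D + tf (fun x => x ^ p) A := by
  rw [Hs_eq p h, tf_eq_trF _ h.pos.1]
  unfold G
  ring

/-- the even terms of the moment sequence -/
theorem ms_even (p : ℝ) {C D : Matrix κ κ ℂ} (h : IsPair C D) (k : ℕ) :
    ms p C D (2 * k) = mu p C D k := by
  rcases k with _ | k
  · show ms p C D (2 * 0) = trF (fun x => x ^ p) C
    rw [mul_zero, ms, if_pos rfl, tf_eq_trF _ h.pos.1]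
  · show ms p C D (2 * (k + 1)) = Ts p C D k
    rw [ms, if_neg (by omega), if_pos (even_two_mul _)]
    congr 1
    omega

theorem ms_odd (p : ℝ) (C D : Matrix κ κ ℂ) (k : ℕ) (hk : ¬ Even k) : ms p C D k = 0 := by
  rw [ms, if_neg (by rintro rfl; exact hk Even.zero), if_neg hk]

theorem inj_two : Function.Injective (fun k : ℕ => 2 * k) := fun x y h => by
  simp only at h
  omega

/-- sums over even indices -/
theorem hasSum_even {a : ℕ → ℝ} {s : ℝ} (hodd : ∀ k, ¬ Even k → a k = 0)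
    (h : HasSum (fun k => a (2 * k)) s) : HasSum a s := by
  rw [← inj_two.hasSum_iff]
  · exact h
  · intro n hn
    apply hodd
    intro he
    apply hn
    obtain ⟨k, hk⟩ := he
    exact ⟨k, by simp only; omega⟩

theorem bin_even_nonneg (p : ℝ) (h3 : 3 < p) (h4 : p < 4) (k : ℕ) (hk : Even k) : 0 ≤ bin p k := by
  obtain ⟨m, rfl⟩ := hk
  rcases m with _ | m
  · simp [bin]
  · have := bin_pos_even p h3 h4 m
    have e : m + 1 + (m + 1) = 2 * m + 2 := by ring
    rw [e]
    exact this.le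

theorem bin_succ (p : ℝ) (k : ℕ) : bin p (k + 1) = bin p k * ((p - k) / (k + 1)) := by
  unfold bin
  rw [Finset.prod_range_succ, Nat.factorial_succ]
  push_cast
  have h1 : ((k : ℝ) + 1) ≠ 0 := by positivity
  have h2 : ((k.factorial : ℕ) : ℝ) ≠ 0 := by positivity
  field_simp

theorem summable_even_bin (p : ℝ) (h3 : 3 < p) (h4 : p < 4) :
    Summable fun k : ℕ => bin p (2 * k) := by
  rw [← summable_nat_add_iff 1]
  exact (Wt_hasSum p h3 h4).summable

theorem summable_abs_bin (p : ℝ) (h3 : 3 < p) (h4 : p < 4) : Summable fun k : ℕ => |bin p k| := by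
  have he := summable_even_bin p h3 h4
  have h1 : Summable fun k : ℕ => |bin p (2 * k)| := he.abs
  have h2 : Summable fun k : ℕ => |bin p (2 * k + 1)| := by
    refine Summable.of_nonneg_of_le (fun _ => abs_nonneg _) ?_ (h1.mul_right (p + 1))
    intro k
    rw [bin_succ, abs_mul]
    apply mul_le_mul_of_nonneg_left _ (abs_nonneg _)
    have hk : (0 : ℝ) ≤ ((2 * k : ℕ) : ℝ) := Nat.cast_nonneg _
    rw [abs_div, abs_of_pos (show (0 : ℝ) < ((2 * k : ℕ) : ℝ) + 1 by linarith),
      div_le_iff₀ (by linarith)]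
    rw [abs_le]
    constructor
    · nlinarith
    · nlinarith
  exact Summable.even_add_odd h1 h2

/-- **Block M1** -/
theorem hasSum_Hs {p : ℝ} (h3 : 3 < p) (h4 : p < 4) {C D : Matrix κ κ ℂ} (h : IsPair C D)
    {x : ℝ} (hx : |x| ≤ 1) :
    HasSum (fun k => Ring.choose p k * ms p C D k * x ^ k) (Hs p C (x • D)) := by
  apply hasSum_even
  · intro k hk
    rw [ms_odd p C D k hk]
    ring
  · have h5 := mu_series p h3 h4 C D h x hx
    rw [rsmul_eq, Hs_eq p (isPair_x_smul h x hx)]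
    refine h5.congr_fun ?_
    intro k
    rw [ms_even p h, bin_eq_choose]

theorem summable_choose {p : ℝ} (h3 : 3 < p) (h4 : p < 4) :
    Summable fun k : ℕ => |Ring.choose p k| := by
  refine (summable_abs_bin p h3 h4).congr ?_
  intro k
  rw [bin_eq_choose]

theorem ms_bdd {p : ℝ} (h3 : 3 < p) (h4 : p < 4) {C D : Matrix κ κ ℂ} (h : IsPair C D) :
    ∃ K : ℝ, ∀ k, |ms p C D k| ≤ K := by
  refine ⟨max |tf (fun x => x ^ p) C| (Ts p C D 0), ?_⟩
  have h0 := Ts_nonneg p h3 h4 C D h 0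
  intro k
  by_cases hk : Even k
  · obtain ⟨m, hm⟩ := hk
    have e : k = 2 * m := by omega
    subst e
    rw [ms_even p h]
    rcases m with _ | m
    · apply le_max_of_le_left
      show |trF (fun x => x ^ p) C| ≤ _
      rw [tf_eq_trF _ h.pos.1]
    · apply le_max_of_le_right
      show |Ts p C D m| ≤ _
      rw [abs_of_nonneg (Ts_nonneg p h3 h4 C D h m)]
      exact Ts_anti p (by linarith) h4 C D h (Nat.zero_le m)
  · rw [ms_odd p C D k hk, abs_zero]
    exact le_max_of_le_right h0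

/-- the trace inequality implies the product inequality -/
theorem blockE {p : ℝ} (h3 : 3 < p) (h4 : p < 4) {A D : Matrix ι ι ℂ} (h : IsPair A D)
    {C D' : Matrix κ κ ℂ} (h' : IsPair C D') (hT : 0 ≤ TT p A D C D') :
    G p A D * G p C D' ≤ (2 ^ (p - 1) - 1) * G p (A ⊗ₖ C) (D ⊗ₖ D') := by
  apply E1_mu p h3 h4 A D h C D' h'
  unfold TT at hT
  rw [Hs_eq p (h.kron h'), sub_nonneg] at hT
  refine le_trans (le_of_eq ?_) hT
  have h5 := (mu_hasSum p h3 h4 A D h C D' h').summable.hasSum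
  have h6 : HasSum (fun k : ℕ => Ring.choose p k * ms p A D k * ms p C D' k)
      (∑' k : ℕ, bin p (2 * k) * (mu p A D k * mu p C D' k)) := by
    apply hasSum_even
    · intro k hk
      rw [ms_odd p A D k hk]
      ring
    · refine h5.congr_fun ?_
      intro k
      rw [ms_even p h, ms_even p h', bin_eq_choose]
      ring
  exact h6.tsum_eq.symm

omit [Fintype ι] [DecidableEq ι] in
theorem strict_isPair {A D : Matrix ι ι ℂ} (h : Strict A D) : IsPair A D :=
  isPair_of_strict h.sub h.add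

/-- **Block E** -/
theorem strict_of_tt {p : ℝ} (h3 : 3 < p) (h4 : p < 4) {A B : Matrix ι ι ℂ} {C D : Matrix κ κ ℂ}
    (hV : Strict A B) (hW : Strict C D) (hT : 0 ≤ TT p A B C D) :
    G p A B * G p C D ≤ (2 ^ (p - 1) - 1) * G p (A ⊗ₖ C) (B ⊗ₖ D) :=
  blockE h3 h4 (strict_isPair hV) (strict_isPair hW) hT

end Pool.Agent.Lib_helper49.GC34
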