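import Pool.Agent.Lib_helper31.GC34.Defs2
import Pool.Agent.Lib_helper92.GC.SUB
import Pool.Agent.Lib_helper49.GC34.E5

/-!
# The functional on `(1 + lam z)^p`, `(1 + lam z)^(p-1)` and `(1 + lam z)^(p-1) z`
-/

set_option autoImplicit false

open scoped BigOperators ComplexOrder Kronecker MatrixOrder Topology
open MeasureTheory Set Matrix Filter

namespace Pool.Agent.Lib_helper49.GC34

open Pool.Agent.RC Pool.Agent.GC34

variable {ι κ : Type} [Fintype ι] [DecidableEq ι] [Fintype κ] [DecidableEq κ]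

theorem cbin_eq_choose (p : ℝ) (k : ℕ) : Ring.choose (p : ℂ) k = ((Ring.choose p k : ℝ) : ℂ) := by
  rw [← bin_eq_choose, Ring.choose_eq_smul, ← Polynomial.aeval_eq_smeval, Polynomial.aeval_def,
    ← Polynomial.eval_map, descPochhammer_map, descPochhammer_eval_eq_prod_range, bin, smul_eq_mul,
    div_eq_inv_mul]
  push_cast
  rfl

/-- the complex binomial series -/
theorem cbin_hasSum (p : ℝ) {w : ℂ} (hw : ‖w‖ < 1) :
    HasSum (fun n : ℕ => ((Ring.choose p n : ℝ) : ℂ) * w ^ n) ((1 + w) ^ (p : ℂ)) := by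
  have h := (Complex.one_add_cpow_hasFPowerSeriesOnBall_zero (a := (p : ℂ))).hasSum (y := w) (by
    rw [← ENNReal.ofReal_one, Metric.eball_ofReal, mem_ball_zero_iff]
    exact hw)
  rw [zero_add] at h
  refine h.congr_fun ?_
  intro n
  rw [← cbin_eq_choose, binomialSeries_apply, List.ofFn_const, List.prod_replicate, smul_eq_mul]

theorem gc_mu_eq (p : ℝ) {C D : Matrix κ κ ℂ} (h : IsPair C D) (k : ℕ) :
    Pool.Agent.GC.mu p C D k = ms p C D k := by
  by_cases hk : Even k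
  · obtain ⟨m, hm⟩ := hk
    have e : k = 2 * m := by omega
    subst e
    rw [ms_even p h]
    rcases m with _ | m
    · rw [mul_zero, Pool.Agent.GC.mu_zero]
      rfl
    · exact Pool.Agent.GC.mu_even p C D m
  · rw [Pool.Agent.GC.mu_odd p C D hk, ms_odd p C D k hk]

theorem summ_coef (p : ℝ) {r lam : ℝ} (hr : 1 < r) (hl : |lam| * r < 1) :
    Summable fun k : ℕ => ‖((Ring.choose p k * lam ^ k : ℝ) : ℂ)‖ * r ^ k := by
  have hx : |(|lam| * r)| < 1 := by
    rw [abs_of_nonneg (mul_nonneg (abs_nonneg _) (by linarith))]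
    exact hl
  have h := (Pool.Agent.GC.PS_bin p hx).sum
  refine h.congr ?_
  intro k
  rw [Complex.norm_real, Real.norm_eq_abs, Pool.Agent.GC.bin_eq_choose, abs_mul, abs_mul, mul_assoc]
  congr 1
  rw [mul_pow, abs_mul, abs_pow, abs_pow, abs_abs, abs_pow, abs_of_pos (show (0 : ℝ) < r by linarith)]

theorem lam_cz_lt {r lam : ℝ} (hr : 1 < r) (hl : |lam| * r < 1) (θ : ℝ) :
    ‖(lam : ℂ) * cz r θ‖ < 1 := by
  rw [norm_mul, Complex.norm_real, Real.norm_eq_abs, norm_cz (by linarith)]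
  exact hl

theorem abs_lam_lt {r lam : ℝ} (hr : 1 < r) (hl : |lam| * r < 1) : |lam| < 1 := by
  have := le_mul_of_one_le_right (abs_nonneg lam) hr.le
  linarith

theorem cell_pow_lam {μ : ℕ → ℝ} {r lam K : ℝ} (hr : 1 < r) (hl : |lam| * r < 1)
    (hK : ∀ k, |μ k| ≤ K) (q : ℝ) {s : ℝ}
    (hs : HasSum (fun k => Ring.choose q k * lam ^ k * μ k) s) :
    cell μ r (fun z => (1 + lam * z) ^ (q : ℂ)) = (s : ℂ) := by
  have h1 := hasSum_cell_coeff hr hK (a := fun k => ((Ring.choose q k * lam ^ k : ℝ) : ℂ))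
    (f := fun z => (1 + lam * z) ^ (q : ℂ)) (summ_coef q hr hl) (by
      intro θ
      refine (cbin_hasSum q (lam_cz_lt hr hl θ)).congr_fun ?_
      intro k
      push_cast
      rw [mul_pow]
      ring)
  have h2 : HasSum (fun k : ℕ => (μ k : ℂ) * ((Ring.choose q k * lam ^ k : ℝ) : ℂ)) (s : ℂ) := by
    have := Complex.hasSum_ofReal.2 hs
    refine this.congr_fun ?_
    intro k
    push_cast
    ring
  exact h1.unique h2

theorem cell_pow_lam_mul {μ : ℕ → ℝ} {r lam K : ℝ} (hr : 1 < r) (hl : |lam| * r < 1)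
    (hK : ∀ k, |μ k| ≤ K) (q : ℝ) {s : ℝ}
    (hs : HasSum (fun k => Ring.choose q k * lam ^ k * μ (k + 1)) s) :
    cell μ r (fun z => (1 + lam * z) ^ (q : ℂ) * z) = (s : ℂ) := by
  have hr0 : 0 < r := by linarith
  have h1 := hasSum_cell hr hK (F := fun (k : ℕ) z =>
      ((Ring.choose q k * lam ^ k : ℝ) : ℂ) * z ^ (k + 1))
    (f := fun z => (1 + lam * z) ^ (q : ℂ) * z)
    (b := fun k => ‖((Ring.choose q k * lam ^ k : ℝ) : ℂ)‖ * r ^ k * r)
    (fun k => continuous_const.mul ((continuous_cz r).pow _))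
    (fun k θ => by rw [norm_mul, norm_pow, norm_cz hr0, pow_succ, mul_assoc])
    ((summ_coef q hr hl).mul_right r) (by
      intro θ
      refine ((cbin_hasSum q (lam_cz_lt hr hl θ)).mul_right (cz r θ)).congr_fun ?_
      intro k
      push_cast
      rw [mul_pow, pow_succ]
      ring)
  have e : ∀ k : ℕ, cell μ r (fun z => ((Ring.choose q k * lam ^ k : ℝ) : ℂ) * z ^ (k + 1)) =
      ((Ring.choose q k * lam ^ k * μ (k + 1) : ℝ) : ℂ) := by
    intro k
    rw [cell_const_mul, cell_pow hr hK]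
    push_cast
    ring
  simp_rw [e] at h1
  exact h1.unique (Complex.hasSum_ofReal.2 hs)

/-- **Block SUB** -/
theorem sub0 {p : ℝ} (h3 : 3 < p) (h4 : p < 4) {C D : Matrix κ κ ℂ} (h : Strict C D) {r lam : ℝ}
    (hr : 1 < r) (hl : |lam| * r < 1) :
    cell (ms p C D) r (fun z => (1 + lam * z) ^ (p : ℂ)) =
      (((tf (fun x => x ^ p) (C + lam • D) + tf (fun x => x ^ p) (C - lam • D)) / 2 : ℝ) : ℂ) := by
  obtain ⟨K, hK⟩ := ms_bdd h3 h4 (strict_isPair h)
  apply cell_pow_lam hr hl hK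
  refine (hasSum_Hs h3 h4 (strict_isPair h) (abs_lam_lt hr hl).le).congr_fun ?_
  intro k
  ring

theorem sub1 {p : ℝ} (h3 : 3 < p) (h4 : p < 4) {C D : Matrix κ κ ℂ} (h : Strict C D) {r lam : ℝ}
    (hr : 1 < r) (hl : |lam| * r < 1) :
    cell (ms p C D) r (fun z => (1 + lam * z) ^ ((p : ℂ) - 1)) =
      ((((cfc (fun x : ℝ => x ^ (p - 1)) (C + lam • D) * C).trace.re +
        (cfc (fun x : ℝ => x ^ (p - 1)) (C - lam • D) * C).trace.re) / 2 : ℝ) : ℂ) := by
  obtain ⟨K, hK⟩ := ms_bdd h3 h4 (strict_isPair h)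
  have e : (p : ℂ) - 1 = ((p - 1 : ℝ) : ℂ) := by push_cast; ring
  rw [e]
  apply cell_pow_lam hr hl hK
  have := Pool.Agent.GC.hasSum_SubA (by linarith : 2 < p) h4 (by linarith : p ≠ 3)
    (strict_isPair h) (abs_lam_lt hr hl)
  refine this.congr_fun ?_
  intro k
  rw [gc_mu_eq p (strict_isPair h), Pool.Agent.GC.bin_eq_choose]

theorem sub2 {p : ℝ} (h3 : 3 < p) (h4 : p < 4) {C D : Matrix κ κ ℂ} (h : Strict C D) {r lam : ℝ}
    (hr : 1 < r) (hl : |lam| * r < 1) :
    cell (ms p C D) r (fun z => (1 + lam * z) ^ ((p : ℂ) - 1) * z) =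
      ((((cfc (fun x : ℝ => x ^ (p - 1)) (C + lam • D) * D).trace.re -
        (cfc (fun x : ℝ => x ^ (p - 1)) (C - lam • D) * D).trace.re) / 2 : ℝ) : ℂ) := by
  obtain ⟨K, hK⟩ := ms_bdd h3 h4 (strict_isPair h)
  have e : (p : ℂ) - 1 = ((p - 1 : ℝ) : ℂ) := by push_cast; ring
  rw [e]
  apply cell_pow_lam_mul hr hl hK
  have := Pool.Agent.GC.hasSum_SubD (by linarith : 2 < p) h4 (by linarith : p ≠ 3)
    (strict_isPair h) (abs_lam_lt hr hl)
  refine this.congr_fun ?_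
  intro k
  rw [gc_mu_eq p (strict_isPair h), Pool.Agent.GC.bin_eq_choose]

end Pool.Agent.Lib_helper49.GC34
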