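import Pool.Agent.Lib_helper95.RC.Main24

/-!
# Block E1: from the trace inequality to the product inequality, `3 < α < 4`
-/

set_option autoImplicit false

open scoped BigOperators ComplexOrder Kronecker MatrixOrder Topology
open MeasureTheory Set Matrix Filter

namespace Pool.Agent.Lib_helper49.GC34

open Pool.Agent.RC

variable {ι κ : Type} [Fintype ι] [DecidableEq ι] [Fintype κ] [DecidableEq κ]

/-- the weights `binom(α, 2), binom(α, 4), ..` of the even moments -/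
theorem E1_weights (α : ℝ) (h3 : 3 < α) (h4 : α < 4) :
    ∃ W : ℕ → ℝ, (∀ m, 0 ≤ W m) ∧ HasSum W (2 ^ (α - 1) - 1) ∧
      ∀ (ι : Type) [Fintype ι] [DecidableEq ι] (A D : Matrix ι ι ℂ), IsPair A D →
        HasSum (fun m : ℕ => W m * Ts α A D m) (G α A D) := by
  obtain ⟨c, hc, hser⟩ := series24 α (by linarith) h4 (by linarith)
  have h0 : 0 < α := by linarith
  have hc0 : c ≠ 0 := by
    rintro rfl
    simp at hc
  have hα : ∀ m : ℕ, α < ((2 * (m + 2) : ℕ) : ℝ) := by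
    intro m
    push_cast
    have : (0 : ℝ) ≤ m := Nat.cast_nonneg m
    linarith
  have hb : ∀ m : ℕ, 0 < bet α (2 * (m + 2)) := fun m => bet_pos α _ h0 (hα m)
  set w : ℕ → ℝ := fun m => c * (bet α (2 * (m + 2)) / (2 * ((m : ℝ) + 2))) with hw
  set C₂ : ℝ := α * (α - 1) / 2 with hC₂
  have hC₂0 : 0 ≤ C₂ := by
    rw [hC₂]
    have : 0 ≤ α - 1 := by linarith
    positivity
  have hsum : ∀ {ι : Type} [Fintype ι] [DecidableEq ι] (A D : Matrix ι ι ℂ), IsPair A D →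
      HasSum (fun m : ℕ => w m * Ts α A D (m + 1)) (G α A D - C₂ * T2 α A D) := by
    intro ι _ _ A D h
    have h5 := (hser ι A D h).mul_left c
    rw [mul_div_cancel₀ _ hc0] at h5
    have h6 : (fun m : ℕ => w m * Ts α A D (m + 1)) =
        fun m : ℕ => c * (In α A D (2 * (m + 2)) / (2 * ((m : ℝ) + 2))) := by
      funext m
      have := (hb m).ne'
      show c * (bet α (2 * (m + 2)) / (2 * ((m : ℝ) + 2))) *
        (In α A D (2 * (m + 2)) / bet α (2 * (m + 2))) = _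
      field_simp
    rw [h6]
    exact h5
  have hone : HasSum w ((2 ^ (α - 1) - 1) - C₂) := by
    have h5 := hsum 1 1 pair_one
    rw [G_one α h0, T2_one α h0 h4, mul_one] at h5
    have h6 : (fun m : ℕ => w m * Ts α (1 : Matrix Unit Unit ℂ) 1 (m + 1)) = w := by
      funext m
      show w m * (In α (1 : Matrix Unit Unit ℂ) 1 (2 * (m + 2)) / bet α (2 * (m + 2))) = w m
      rw [In_one, div_self (hb m).ne', mul_one]
    rw [h6] at h5
    exact h5
  have hcpos : 0 < c := by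
    rcases pos_and_pos_or_neg_and_neg_of_mul_pos hc with h | h
    · exact h.1
    · linarith [h.2]
  set W : ℕ → ℝ := fun m => Nat.casesOn m C₂ w with hW
  have hWs : ∀ (T : ℕ → ℝ) (s : ℝ), HasSum (fun m => w m * T (m + 1)) s →
      HasSum (fun m => W m * T m) (C₂ * T 0 + s) := by
    intro T s hs
    have h5 := (hasSum_nat_add_iff (f := fun m => W m * T m) 1).1 hs
    rw [Finset.sum_range_one, add_comm] at h5
    exact h5
  refine ⟨W, ?_, ?_, ?_⟩
  · intro m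
    rcases m with _ | m
    · exact hC₂0
    · show 0 ≤ c * (bet α (2 * (m + 2)) / (2 * ((m : ℝ) + 2)))
      have := (hb m).le
      positivity
  · have := hWs (fun _ => 1) ((2 ^ (α - 1) - 1) - C₂) (by simpa using hone)
    simp only [mul_one] at this
    have e : C₂ + (2 ^ (α - 1) - 1 - C₂) = (2 : ℝ) ^ (α - 1) - 1 := by ring
    rwa [e] at this
  · intro ι _ _ A D h
    have h5 := hWs (Ts α A D) _ (hsum A D h)
    have e : C₂ * Ts α A D 0 + (G α A D - C₂ * T2 α A D) = G α A D := by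
      show C₂ * T2 α A D + (G α A D - C₂ * T2 α A D) = G α A D
      ring
    rwa [e] at h5

/-- Chebyshev -/
theorem E1_core (α : ℝ) (h3 : 3 < α) (h4 : α < 4) (W : ℕ → ℝ) (hW0 : ∀ m, 0 ≤ W m)
    (hW1 : HasSum W (2 ^ (α - 1) - 1)) (A₁ D₁ : Matrix ι ι ℂ) (h₁ : IsPair A₁ D₁)
    (A₂ D₂ : Matrix κ κ ℂ) (h₂ : IsPair A₂ D₂)
    (hG₁ : HasSum (fun m : ℕ => W m * Ts α A₁ D₁ m) (G α A₁ D₁))
    (hG₂ : HasSum (fun m : ℕ => W m * Ts α A₂ D₂ m) (G α A₂ D₂))
    (s : ℝ) (hs : HasSum (fun m => W m * (Ts α A₁ D₁ m * Ts α A₂ D₂ m)) s)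
    (hT : s ≤ G α (A₁ ⊗ₖ A₂) (D₁ ⊗ₖ D₂)) :
    G α A₁ D₁ * G α A₂ D₂ ≤ (2 ^ (α - 1) - 1) * G α (A₁ ⊗ₖ A₂) (D₁ ⊗ₖ D₂) := by
  have h0 : 0 < α := by linarith
  have h5 := cheb W (Ts α A₁ D₁) (Ts α A₂ D₂) (fun m => Ts α A₁ D₁ m * Ts α A₂ D₂ m) hW0
    (Ts_anti α h0 h4 A₁ D₁ h₁) (Ts_anti α h0 h4 A₂ D₂ h₂) (fun _ => le_rfl) _ _ _ _ hG₁ hG₂ hs hW1
  refine h5.trans (mul_le_mul_of_nonneg_left hT ?_)
  have : (1 : ℝ) ≤ 2 ^ (α - 1) := Real.one_le_rpow (by norm_num) (by linarith)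
  linarith

end Pool.Agent.Lib_helper49.GC34
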