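import Pool.Agent.Lib_helper49.GC34.E1

/-!
# Block E1, second part: the weights are binomial coefficients
-/

set_option autoImplicit false

open scoped BigOperators ComplexOrder Kronecker MatrixOrder Topology
open MeasureTheory Set Matrix Filter

namespace Pool.Agent.Lib_helper49.GC34

open Pool.Agent.RC

variable {ι κ : Type} [Fintype ι] [DecidableEq ι] [Fintype κ] [DecidableEq κ]

/-- the binomial coefficient `binom(p, k)` -/
noncomputable def bin (p : ℝ) (k : ℕ) : ℝ :=
  (∏ j ∈ Finset.range k, (p - j)) / (k.factorial : ℝ)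

/-- the weights `binom(p, 2), binom(p, 4), ..` -/
noncomputable def Wt (p : ℝ) (m : ℕ) : ℝ := bin p (2 * m + 2)

theorem bin_eq_choose (p : ℝ) (k : ℕ) : bin p k = Ring.choose p k := by
  rw [Ring.choose_eq_smul, ← Polynomial.aeval_eq_smeval, Polynomial.aeval_def,
    ← Polynomial.eval_map, descPochhammer_map, descPochhammer_eval_eq_prod_range, bin, smul_eq_mul,
    div_eq_inv_mul]

/-- uniqueness of power series -/
theorem ps_unique {a b : ℕ → ℝ} {f : ℝ → ℝ}
    (ha : ∀ᶠ x in 𝓝 (0 : ℝ), HasSum (fun n => a n * x ^ n) (f x))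
    (hb : ∀ᶠ x in 𝓝 (0 : ℝ), HasSum (fun n => b n * x ^ n) (f x)) : a = b := by
  have key : ∀ c : ℕ → ℝ, (∀ᶠ x in 𝓝 (0 : ℝ), HasSum (fun n => c n * x ^ n) (f x)) →
      HasFPowerSeriesAt f (FormalMultilinearSeries.ofScalars ℝ c) 0 := by
    intro c hc
    rw [hasFPowerSeriesAt_iff]
    filter_upwards [hc] with z hz
    rw [zero_add]
    have h4 : (fun n => z ^ n • (FormalMultilinearSeries.ofScalars ℝ c).coeff n) =
        fun n => c n * z ^ n := by
      funext n
      rw [FormalMultilinearSeries.coeff_ofScalars, smul_eq_mul, mul_comm]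
    rw [h4]
    exact hz
  have h := (key a ha).eq_formalMultilinearSeries (key b hb)
  funext k
  have h4 := congrArg (fun q : FormalMultilinearSeries ℝ ℝ ℝ => q.coeff k) h
  simpa [FormalMultilinearSeries.coeff_ofScalars] using h4

/-- the binomial series -/
theorem bin_hasSum (p x : ℝ) (hx : |x| < 1) : HasSum (fun n => bin p n * x ^ n) ((1 + x) ^ p) := by
  have h := (Real.one_add_rpow_hasFPowerSeriesOnBall_zero (a := p)).hasSum (y := x) (by
    rw [← ENNReal.ofReal_one, Metric.eball_ofReal, mem_ball_zero_iff, Real.norm_eq_abs]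
    exact hx)
  rw [zero_add] at h
  refine h.congr_fun ?_
  intro n
  rw [bin_eq_choose, binomialSeries_apply, List.ofFn_const, List.prod_replicate, smul_eq_mul]

theorem bin_pos_even (p : ℝ) (h3 : 3 < p) (h4 : p < 4) (m : ℕ) : 0 < bin p (2 * m + 2) := by
  have hprod : ∀ m : ℕ, 0 < ∏ j ∈ Finset.range (2 * m + 2), (p - (j : ℝ)) := by
    intro m
    induction m with
    | zero =>
      simp only [mul_zero, zero_add]
      rw [Finset.prod_range_succ, Finset.prod_range_succ, Finset.prod_range_zero]
      push_cast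
      have h1 : 0 < p - 0 := by linarith
      have h2 : 0 < p - 1 := by linarith
      positivity
    | succ m ih =>
      have e : 2 * (m + 1) + 2 = 2 * m + 2 + 1 + 1 := by ring
      rw [e, Finset.prod_range_succ, Finset.prod_range_succ, mul_assoc]
      apply mul_pos ih
      rcases Nat.eq_zero_or_pos m with rfl | hm
      · push_cast
        apply mul_pos <;> linarith
      · have hm' : (1 : ℝ) ≤ m := by exact_mod_cast hm
        push_cast
        apply mul_pos_of_neg_of_neg <;> linarith
  exact div_pos (hprod m) (by positivity)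

/-- the even part of the binomial series with the two endpoints -/
theorem Wt_eq (p : ℝ) (h3 : 3 < p) (h4 : p < 4) (W : ℕ → ℝ)
    (hW : ∀ x : ℝ, |x| < 1 →
      HasSum (fun m : ℕ => W m * x ^ (2 * m + 2)) (((1 + x) ^ p + (1 - x) ^ p) / 2 - 1)) :
    W = Wt p := by
  set a : ℕ → ℝ := fun n => if n = 0 then 1 else if Even n then W (n / 2 - 1) else 0 with ha
  set b : ℕ → ℝ := fun n => bin p n * ((1 + (-1) ^ n) / 2) with hb
  have hinj : Function.Injective (fun m : ℕ => 2 * m + 2) := fun x y h => by
    simp only at h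
    omega
  have hx0 : ∀ᶠ x in 𝓝 (0 : ℝ), |x| < 1 := by
    have h := Metric.ball_mem_nhds (0 : ℝ) one_pos
    filter_upwards [h] with x hx
    rwa [mem_ball_zero_iff, Real.norm_eq_abs] at hx
  have h1 : ∀ᶠ x in 𝓝 (0 : ℝ), HasSum (fun n => a n * x ^ n) (((1 + x) ^ p + (1 - x) ^ p) / 2) := by
    filter_upwards [hx0] with x hx
    have h5 := hW x hx
    have h6 : HasSum (fun n => (if n = 0 then (0 : ℝ) else a n) * x ^ n)
        (((1 + x) ^ p + (1 - x) ^ p) / 2 - 1) := by
      rw [← hinj.hasSum_iff]
      · refine h5.congr_fun ?_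
        intro m
        have e1 : (2 * m + 2) / 2 - 1 = m := by omega
        have e2 : Even (2 * m + 2) := ⟨m + 1, by ring⟩
        simp [ha, e1, e2]
      · intro n hn
        rcases Nat.eq_zero_or_pos n with rfl | h0
        · simp
        · have hodd : ¬ Even n := by
            intro he
            apply hn
            obtain ⟨k, hk⟩ := he
            exact ⟨k - 1, by simp only; omega⟩
          simp [ha, h0.ne', hodd]
    have h7 := h6.add (hasSum_ite_eq (0 : ℕ) (1 : ℝ))
    rw [sub_add_cancel] at h7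
    refine h7.congr_fun ?_
    intro n
    rcases Nat.eq_zero_or_pos n with rfl | h0
    · simp [ha]
    · simp [h0.ne']
  have h2 : ∀ᶠ x in 𝓝 (0 : ℝ), HasSum (fun n => b n * x ^ n) (((1 + x) ^ p + (1 - x) ^ p) / 2) := by
    filter_upwards [hx0] with x hx
    have h5 := bin_hasSum p x hx
    have h6 := bin_hasSum p (-x) (by rwa [abs_neg])
    have h7 := (h5.add h6).div_const 2
    rw [← sub_eq_add_neg] at h7
    refine h7.congr_fun ?_
    intro n
    rw [neg_pow]
    simp only [hb]
    ring
  have h := ps_unique h1 h2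
  funext m
  have h5 := congrFun h (2 * m + 2)
  have e1 : (2 * m + 2) / 2 - 1 = m := by omega
  have e2 : Even (2 * m + 2) := ⟨m + 1, by ring⟩
  simp only [ha, hb, e1, e2, if_true, e2.neg_one_pow] at h5
  rw [if_neg (by omega)] at h5
  rw [h5, Wt]
  norm_num

theorem Wt_pos (p : ℝ) (h3 : 3 < p) (h4 : p < 4) (m : ℕ) : 0 < Wt p m := bin_pos_even p h3 h4 m

end Pool.Agent.Lib_helper49.GC34
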