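import Pool.Agent.Lib_helper49.GC34.E2

/-!
# Block E1, third part: `E1_weights` with the binomial weights, and the final implication
-/

set_option autoImplicit false

open scoped BigOperators ComplexOrder Kronecker MatrixOrder Topology
open MeasureTheory Set Matrix Filter

namespace Pool.Agent.Lib_helper49.GC34

open Pool.Agent.RC

variable {ι κ : Type} [Fintype ι] [DecidableEq ι] [Fintype κ] [DecidableEq κ]

/-! ### the scalar pair `(1, x)` -/

theorem trF_unit (f : ℝ → ℝ) (c : ℝ) : trF f ((c : ℂ) • (1 : Matrix Unit Unit ℂ)) = f c := by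
  have hh : ((c : ℂ) • (1 : Matrix Unit Unit ℂ)).IsHermitian := by
    rw [dg_smul_one]
    exact dg_isHermitian _
  unfold trF
  rw [dif_pos hh]
  have h1 := hh.trace_eq_sum_eigenvalues
  rw [Matrix.trace_smul, Matrix.trace_one] at h1
  simp only [Fintype.card_unique, Nat.cast_one, smul_eq_mul, mul_one, Finset.univ_unique,
    Finset.sum_singleton] at h1
  rw [Finset.univ_unique, Finset.sum_singleton]
  have h2 : ((c : ℝ) : ℂ) = ((hh.eigenvalues default : ℝ) : ℂ) := h1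
  exact congrArg f (Complex.ofReal_inj.1 h2).symm

omit [Fintype κ] in
theorem dg_psd (c : κ → ℝ) (hc : ∀ k, 0 ≤ c k) : (dg c).PosSemidef := by
  unfold dg
  apply Matrix.PosSemidef.diagonal
  intro k
  show (0 : ℂ) ≤ (c k : ℂ)
  exact_mod_cast hc k

theorem pair_x (x : ℝ) (hx : |x| ≤ 1) : IsPair (1 : Matrix Unit Unit ℂ) ((x : ℂ) • 1) where
  pos := Matrix.PosDef.one
  sub := by
    have e : (1 : Matrix Unit Unit ℂ) - (x : ℂ) • 1 = dg fun _ => 1 - x := by
      have : (1 : Matrix Unit Unit ℂ) - (x : ℂ) • 1 = ((1 - x : ℝ) : ℂ) • 1 := by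
        push_cast
        rw [sub_smul, one_smul]
      rw [this, dg_smul_one]
    rw [e]
    exact dg_psd _ fun _ => by linarith [(abs_le.1 hx).2]
  add := by
    have e : (1 : Matrix Unit Unit ℂ) + (x : ℂ) • 1 = dg fun _ => 1 + x := by
      have : (1 : Matrix Unit Unit ℂ) + (x : ℂ) • 1 = ((1 + x : ℝ) : ℂ) • 1 := by
        push_cast
        rw [add_smul, one_smul]
      rw [this, dg_smul_one]
    rw [e]
    exact dg_psd _ fun _ => by linarith [(abs_le.1 hx).1]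

theorem In_x (α x : ℝ) (n : ℕ) :
    In α (1 : Matrix Unit Unit ℂ) ((x : ℂ) • 1) n = x ^ n * bet α n := by
  rw [← In_one]
  unfold In
  rw [← integral_const_mul]
  congr 1
  funext r
  have : tn (1 : Matrix Unit Unit ℂ) ((x : ℂ) • 1) n r = x ^ n * tn (1 : Matrix Unit Unit ℂ) 1 n r := by
    unfold tn
    rw [Matrix.mul_smul, smul_pow, Matrix.trace_smul, smul_eq_mul, ← Complex.ofReal_pow,
      Complex.re_ofReal_mul]
  rw [this]
  ring

theorem T2_x (α x : ℝ) (h0 : 0 < α) (h4 : α < 4) :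
    T2 α (1 : Matrix Unit Unit ℂ) ((x : ℂ) • 1) = x ^ 2 := by
  have h := T2_dg α h0 h4 (fun _ : Unit => (1 : ℝ)) (fun _ => one_pos) ((x : ℂ) • 1) (by
    rw [dg_smul_one]
    exact dg_isHermitian _)
  rw [dg_one] at h
  rw [h]
  simp [hk_one]

theorem Ts_x (α x : ℝ) (h0 : 0 < α) (h4 : α < 4) (m : ℕ) :
    Ts α (1 : Matrix Unit Unit ℂ) ((x : ℂ) • 1) m = x ^ (2 * m + 2) := by
  rcases m with _ | m
  · exact T2_x α x h0 h4
  · show In α (1 : Matrix Unit Unit ℂ) ((x : ℂ) • 1) (2 * (m + 2)) / bet α (2 * (m + 2)) = _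
    have hb : 0 < bet α (2 * (m + 2)) := by
      apply bet_pos α _ h0
      push_cast
      have : (0 : ℝ) ≤ m := Nat.cast_nonneg m
      linarith
    rw [In_x, mul_div_assoc, div_self hb.ne', mul_one]
    congr 1

theorem G_x (α x : ℝ) : G α (1 : Matrix Unit Unit ℂ) ((x : ℂ) • 1) =
    ((1 + x) ^ α + (1 - x) ^ α) / 2 - 1 := by
  unfold G
  have e1 : (1 : Matrix Unit Unit ℂ) + (x : ℂ) • 1 = ((1 + x : ℝ) : ℂ) • 1 := by
    push_cast
    rw [add_smul, one_smul]
  have e2 : (1 : Matrix Unit Unit ℂ) - (x : ℂ) • 1 = ((1 - x : ℝ) : ℂ) • 1 := by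
    push_cast
    rw [sub_smul, one_smul]
  have e3 : trF (fun x => x ^ α) (1 : Matrix Unit Unit ℂ) = 1 := by
    have := trF_unit (fun x => x ^ α) 1
    simpa using this
  rw [e1, e2, trF_unit, trF_unit, e3]

/-! ### the weights -/

/-- `∑_k binom(p, 2k+2) Ts = G`, with the binomial weights -/
theorem Wt_spec (p : ℝ) (h3 : 3 < p) (h4 : p < 4) :
    HasSum (Wt p) (2 ^ (p - 1) - 1) ∧
      ∀ (ι : Type) [Fintype ι] [DecidableEq ι] (A D : Matrix ι ι ℂ), IsPair A D →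
        HasSum (fun m : ℕ => Wt p m * Ts p A D m) (G p A D) := by
  obtain ⟨W, hW0, hW1, hW⟩ := E1_weights p h3 h4
  have e : W = Wt p := by
    apply Wt_eq p h3 h4
    intro x hx
    have h5 := hW Unit 1 ((x : ℂ) • 1) (pair_x x hx.le)
    rw [G_x] at h5
    refine h5.congr_fun ?_
    intro m
    rw [Ts_x p x (by linarith) h4]
  subst e
  exact ⟨hW1, hW⟩

theorem Wt_hasSum (p : ℝ) (h3 : 3 < p) (h4 : p < 4) : HasSum (Wt p) (2 ^ (p - 1) - 1) :=
  (Wt_spec p h3 h4).1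

theorem G_hasSum (p : ℝ) (h3 : 3 < p) (h4 : p < 4) (A D : Matrix ι ι ℂ) (h : IsPair A D) :
    HasSum (fun m : ℕ => Wt p m * Ts p A D m) (G p A D) :=
  (Wt_spec p h3 h4).2 ι A D h

theorem Ts_nonneg (p : ℝ) (h3 : 3 < p) (h4 : p < 4) (A D : Matrix ι ι ℂ) (h : IsPair A D)
    (m : ℕ) : 0 ≤ Ts p A D m := by
  -- the terms `In` are nonneg, and `Ts 0 ≥ Ts 1`
  have hD : D.IsHermitian := by
    have := h.add.1.sub h.pos.1
    rwa [add_sub_cancel_left] at this
  have h1 : ∀ m : ℕ, 0 ≤ Ts p A D (m + 1) := by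
    intro m
    show 0 ≤ In p A D (2 * (m + 2)) / bet p (2 * (m + 2))
    apply div_nonneg
    · exact In_nonneg p A D h.pos hD _ (even_two_mul _)
    · apply (bet_pos p _ (by linarith) _).le
      push_cast
      have : (0 : ℝ) ≤ m := Nat.cast_nonneg m
      linarith
  rcases m with _ | m
  · exact (h1 0).trans (Ts_anti p (by linarith) h4 A D h (Nat.zero_le 1))
  · exact h1 m

theorem TT_summable (p : ℝ) (h3 : 3 < p) (h4 : p < 4) (A D : Matrix ι ι ℂ) (h : IsPair A D)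
    (C D' : Matrix κ κ ℂ) (h' : IsPair C D') :
    Summable fun m : ℕ => Wt p m * (Ts p A D m * Ts p C D' m) := by
  have h5 := ((G_hasSum p h3 h4 A D h).mul_right (Ts p C D' 0)).summable
  refine Summable.of_nonneg_of_le ?_ ?_ h5
  · intro m
    exact mul_nonneg (Wt_pos p h3 h4 m).le
      (mul_nonneg (Ts_nonneg p h3 h4 A D h m) (Ts_nonneg p h3 h4 C D' h' m))
  · intro m
    have h6 := Ts_anti p (by linarith) h4 C D' h' (Nat.zero_le m)
    have h7 := mul_nonneg (Wt_pos p h3 h4 m).le (Ts_nonneg p h3 h4 A D h m)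
    have h8 := mul_le_mul_of_nonneg_left h6 h7
    linarith

/-- **Block E1**: from `T ≥ 0` to the product inequality -/
theorem E1 (p : ℝ) (h3 : 3 < p) (h4 : p < 4) (A D : Matrix ι ι ℂ) (h : IsPair A D)
    (C D' : Matrix κ κ ℂ) (h' : IsPair C D')
    (hT : ∑' m : ℕ, Wt p m * (Ts p A D m * Ts p C D' m) ≤ G p (A ⊗ₖ C) (D ⊗ₖ D')) :
    G p A D * G p C D' ≤ (2 ^ (p - 1) - 1) * G p (A ⊗ₖ C) (D ⊗ₖ D') :=
  E1_core p h3 h4 (Wt p) (fun m => (Wt_pos p h3 h4 m).le) (Wt_hasSum p h3 h4) A D h C D' h'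
    (G_hasSum p h3 h4 A D h) (G_hasSum p h3 h4 C D' h') _
    (TT_summable p h3 h4 A D h C D' h').hasSum hT

end Pool.Agent.Lib_helper49.GC34
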